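import Mathlib.Algebra.Group.End
import Mathlib.Algebra.Group.Hom.Defs
import Mathlib.Data.ZMod.Basic
import Mathlib.Data.Fintype.Prod
import Mathlib.Data.Fintype.Sum
import Mathlib.Data.Fintype.Pi
import Mathlib.Data.Fintype.BigOperators
import Mathlib.Data.Set.Card
import Mathlib.Logic.Embedding.Set
import Mathlib.Tactic.Ring
import Mathlib.Tactic.Linarith

/-!
# MP_e4b752_al : the minimum degree of a variant of `T_n` can be smaller than `2n - r`

For `n = 2k²` and a map `a` of rank two with two kernel classes of size `k²` we construct a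
faithful representation of the variant `T_n^a` of degree `6s + 3(k²-1) + 2`, where `s` is any
number with `k < s` and `k⁴ ≤ s³`.  For `k ≥ 15` this can be made smaller than `2n - 2`.
-/

namespace Pool.Agent.Results.MP_e4b752_al.SmallerDegree

/-- The variant `T_n^a`: the set of all maps on `{0, …, n-1}` with the product `x a y`. -/
def Variant {n : ℕ} (_a : Fin n → Fin n) : Type := Fin n → Fin n

instance {n : ℕ} (a : Fin n → Fin n) : Semigroup (Variant a) where
  mul x y := (x ∘ a ∘ y : Fin n → Fin n)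
  mul_assoc _ _ _ := rfl

/-- The rank of a map. -/
noncomputable def rank {n : ℕ} (a : Fin n → Fin n) : ℕ := (Set.range a).ncard

/-- `S` embeds in the full transformation semigroup `T_m`. -/
def EmbedsIn (S : Type) [Semigroup S] (m : ℕ) : Prop :=
  ∃ φ : S →ₙ* Function.End (Fin m), Function.Injective φ

/-- The minimum degree of a semigroup. -/
noncomputable def minDegree (S : Type) [Semigroup S] : ℕ := sInf {m | 1 ≤ m ∧ EmbedsIn S m}

/-! ### Operations on maps with at most two values -/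

/-- A map taking at most two values. -/
def TwoValued {I T : Type} (x : I → T) : Prop := ∃ p q, ∀ i, x i = p ∨ x i = q

theorem twoValued_comp {I T T' : Type} {x : I → T} (h : TwoValued x) (γ : T → T') :
    TwoValued (γ ∘ x) := by
  obtain ⟨p, q, hpq⟩ := h
  exact ⟨γ p, γ q, fun i => (hpq i).imp (congrArg γ) (congrArg γ)⟩

theorem TwoValued.cases {I T : Type} {x : I → T} (h : TwoValued x) {i0 i1 : I}
    (hne : x i0 ≠ x i1) (i : I) : x i = x i0 ∨ x i = x i1 := by
  obtain ⟨p, q, hpq⟩ := h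
  rcases hpq i with h1 | h1 <;> rcases hpq i0 with h2 | h2 <;> rcases hpq i1 with h3 | h3
  · exact Or.inl (h1.trans h2.symm)
  · exact Or.inl (h1.trans h2.symm)
  · exact Or.inr (h1.trans h3.symm)
  · exact absurd (h2.trans h3.symm) hne
  · exact absurd (h2.trans h3.symm) hne
  · exact Or.inr (h1.trans h3.symm)
  · exact Or.inl (h1.trans h2.symm)
  · exact Or.inl (h1.trans h2.symm)

theorem twoValued_bool {I : Type} (f : I → Bool) : TwoValued f :=
  ⟨false, true, fun i => by cases f i <;> simp⟩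

open Classical in
/-- the minority operation -/
noncomputable def mal {T : Type} (p q r : T) : T := if p = q then r else if p = r then q else p

theorem mal_comm {I T T' : Type} {x : I → T} (h : TwoValued x) (γ : T → T') (i j k : I) :
    mal (γ (x i)) (γ (x j)) (γ (x k)) = γ (mal (x i) (x j) (x k)) := by
  obtain ⟨p, q, hpq⟩ := h
  unfold mal
  rcases hpq i with hi | hi <;> rcases hpq j with hj | hj <;> rcases hpq k with hk | hk <;>
    rw [hi, hj, hk] <;> by_cases h1 : p = q <;> by_cases h2 : γ p = γ q <;>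
    simp [h1, h2, Ne.symm]

open Classical in
/-- The operation `ext`: if `x i0 ≠ x i1` it is `x i1`; otherwise it is a value of `x` different
from `x i0 = x i1`, if there is one, and it is `x i0` if `x` is constant. -/
noncomputable def ext {I T : Type} (i0 i1 : I) (x : I → T) : T :=
  if x i0 ≠ x i1 then x i1 else if h : ∃ i, x i ≠ x i0 then x h.choose else x i0

section ext

variable {I T : Type} (i0 i1 : I) (x : I → T)

theorem ext_ne (h : x i0 ≠ x i1) : ext i0 i1 x = x i1 := by
  unfold ext; rw [if_pos h]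

theorem ext_const (h : ∀ i, x i = x i0) : ext i0 i1 x = x i0 := by
  unfold ext
  rw [if_neg (fun h' => h' (h i1).symm), dif_neg]
  rintro ⟨i, hi⟩
  exact hi (h i)

theorem ext_other (h2 : TwoValued x) (h : x i0 = x i1) (i : I) (hi : x i ≠ x i0) :
    ext i0 i1 x = x i := by
  have hex : ∃ i, x i ≠ x i0 := ⟨i, hi⟩
  unfold ext
  rw [if_neg (fun h' => h' h), dif_pos hex]
  have hc := hex.choose_spec
  obtain ⟨p, q, hpq⟩ := h2
  rcases hpq i with h3 | h3 <;> rcases hpq hex.choose with h4 | h4 <;>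
    rcases hpq i0 with h5 | h5 <;> simp_all

theorem ext_mem (h2 : TwoValued x) : ∃ i, ext i0 i1 x = x i := by
  by_cases h : x i0 = x i1
  · by_cases h' : ∃ i, x i ≠ x i0
    · obtain ⟨i, hi⟩ := h'
      exact ⟨i, ext_other i0 i1 x h2 h i hi⟩
    · push Not at h'
      exact ⟨i0, ext_const i0 i1 x h'⟩
  · exact ⟨i1, ext_ne i0 i1 x h⟩

theorem ext_comm (h2 : TwoValued x) {T' : Type} (γ : T → T') :
    ext i0 i1 (γ ∘ x) = γ (ext i0 i1 x) := by
  by_cases h : x i0 = x i1
  · by_cases h' : ∃ i, x i ≠ x i0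
    · obtain ⟨i, hi⟩ := h'
      rw [ext_other i0 i1 x h2 h i hi]
      by_cases h3 : γ (x i) = γ (x i0)
      · -- then `γ ∘ x` is constant
        rw [ext_const i0 i1 (γ ∘ x), h3]
        · rfl
        · intro j
          obtain ⟨p, q, hpq⟩ := h2
          show γ (x j) = γ (x i0)
          rcases hpq i with h4 | h4 <;> rcases hpq j with h5 | h5 <;>
            rcases hpq i0 with h6 | h6 <;> simp_all
      · rw [ext_other i0 i1 (γ ∘ x) (twoValued_comp h2 γ) (congrArg γ h) i h3]
        rfl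
    · push Not at h'
      rw [ext_const i0 i1 x h', ext_const i0 i1 (γ ∘ x) (fun j => congrArg γ (h' j))]
      rfl
  · rw [ext_ne i0 i1 x h]
    by_cases h3 : γ (x i0) = γ (x i1)
    · rw [ext_const i0 i1 (γ ∘ x)]
      · exact h3
      · intro j
        obtain ⟨p, q, hpq⟩ := h2
        show γ (x j) = γ (x i0)
        rcases hpq i1 with h4 | h4 <;> rcases hpq j with h5 | h5 <;>
            rcases hpq i0 with h6 | h6 <;> simp_all
    · rw [ext_ne i0 i1 (γ ∘ x) h3]
      rfl

end ext

/-! ### The representation -/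

section rep

variable (k s : ℕ) [NeZero k] [NeZero s]

/-- the kernel classes are indexed by `Bool`, the elements of each by `Mm` -/
abbrev Mm : Type := Fin k × Fin k

/-- the set on which the maps act -/
abbrev N : Type := Bool × Mm k

/-- the two points of the image of the map `a` -/
def A (b : Bool) : N k := (b, (0, 0))

/-- the map `a` -/
def aa (i : N k) : N k := A k i.1

/-- the three code coordinates -/
def code (j : Fin 3) (m : Mm k) : ZMod s :=
  if j = 0 then ((m.1 : ℕ) : ZMod s) else if j = 1 then ((m.2 : ℕ) : ZMod s)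
  else ((m.1 : ℕ) : ZMod s) + ((m.2 : ℕ) : ZMod s)

variable {k s}

theorem cast_inj (hks : k < s) {u v : Fin k} (h : ((u : ℕ) : ZMod s) = ((v : ℕ) : ZMod s)) :
    u = v := by
  rw [ZMod.natCast_eq_natCast_iff'] at h
  rw [Nat.mod_eq_of_lt (lt_trans u.2 hks), Nat.mod_eq_of_lt (lt_trans v.2 hks)] at h
  exact Fin.ext h

theorem cast_ne (hks : k < s) (u : Fin k) : ((u : ℕ) : ZMod s) ≠ (k : ZMod s) := by
  intro h
  rw [ZMod.natCast_eq_natCast_iff', Nat.mod_eq_of_lt (lt_trans u.2 hks),
    Nat.mod_eq_of_lt hks] at h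
  exact absurd h u.2.ne

variable (k s)

/-- points of the `Z`-part -/
abbrev Z : Type := Fin 3 × Bool × ZMod s

/-- the maps `π^j` -/
def pr (j : Fin 3) (i : N k) : Z s := (j, i.1, code k s j i.2)

variable {k s}

/-- two different points agree in at most one of the three projections -/
theorem pr_code (hks : k < s) {p q : N k} {j j' : Fin 3} (hj : j ≠ j')
    (h : pr k s j p = pr k s j q) (h' : pr k s j' p = pr k s j' q) : p = q := by
  obtain ⟨b, u, v⟩ := p
  obtain ⟨b', u', v'⟩ := q
  simp only [pr, Prod.mk.injEq, true_and] at h h'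
  obtain ⟨rfl, h⟩ := h
  have h' := h'.2
  have key : ∀ j : Fin 3, code k s j (u, v) = code k s j (u', v') →
      (j = 0 → u = u') ∧ (j = 1 → v = v') ∧
      (j = 2 → ((u : ℕ) : ZMod s) + ((v : ℕ) : ZMod s) = ((u' : ℕ) : ZMod s) +
        ((v' : ℕ) : ZMod s)) := by
    intro j hj
    refine ⟨?_, ?_, ?_⟩
    · rintro rfl
      exact cast_inj hks (by simpa [code] using hj)
    · rintro rfl
      exact cast_inj hks (by simpa [code] using hj)
    · rintro rfl
      simpa [code] using hj
  have k1 := key j h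
  have k2 := key j' h'
  have hfin : ∀ j : Fin 3, j = 0 ∨ j = 1 ∨ j = 2 := by decide
  rcases hfin j with rfl | rfl | rfl <;> rcases hfin j' with rfl | rfl | rfl
  · exact absurd rfl hj
  · rw [k1.1 rfl, k2.2.1 rfl]
  · have hu := k1.1 rfl
    have := k2.2.2 rfl
    rw [hu] at this
    rw [hu, cast_inj hks (add_left_cancel this)]
  · rw [k2.1 rfl, k1.2.1 rfl]
  · exact absurd rfl hj
  · have hv := k1.2.1 rfl
    have := k2.2.2 rfl
    rw [hv] at this
    rw [hv, cast_inj hks (add_right_cancel this)]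
  · have hu := k2.1 rfl
    have := k1.2.2 rfl
    rw [hu] at this
    rw [hu, cast_inj hks (add_left_cancel this)]
  · have hv := k2.2.1 rfl
    have := k1.2.2 rfl
    rw [hv] at this
    rw [hv, cast_inj hks (add_right_cancel this)]
  · exact absurd rfl hj

variable (k s)

/-- the primes: three for each `m ≠ (0,0)`, and two more -/
abbrev Pr : Type := ({m : Mm k // m ≠ (0, 0)} × Fin 3) ⊕ Fin 2

/-- all points -/
abbrev Om : Type := Z s ⊕ Pr k

variable {k s}

/-- the operation belonging to a prime -/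
noncomputable def op {T : Type} (ω : Pr k) (x : N k → T) : T :=
  match ω with
  | Sum.inl (m, j) =>
    if j = 0 then x (false, m.1) else if j = 1 then x (true, m.1)
    else mal (x (false, m.1)) (x (true, m.1)) (x (A k true))
  | Sum.inr _ => ext (A k false) (A k true) x

theorem op_comm {T T' : Type} (ω : Pr k) (x : N k → T) (h : TwoValued x) (γ : T → T') :
    op ω (γ ∘ x) = γ (op ω x) := by
  rcases ω with ⟨m, j⟩ | j
  · unfold op
    by_cases h0 : j = 0
    · simp [h0]
    · by_cases h1 : j = 1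
      · simp [h1]
      · simp only [h0, h1, if_false]
        exact mal_comm h γ _ _ _
  · exact ext_comm _ _ x h γ

/-- the component to which a prime is mapped -/
def comp (ω : Pr k) : Fin 3 :=
  match ω with
  | Sum.inl (_, j) => j
  | Sum.inr j => Fin.castSucc j

/-- the free choice for maps with at least three values -/
def free (E : Mm k × Mm k → Fin 3 → ZMod s) (ω : Pr k) (x : N k → N k) : ZMod s :=
  match ω with
  | Sum.inl (m, j) => E ((x (false, m.1)).2, (x (true, m.1)).2) j
  | Sum.inr _ => (k : ZMod s)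

open Classical in
/-- the action on a prime -/
noncomputable def theta (E : Mm k × Mm k → Fin 3 → ZMod s) (ω : Pr k) (x : N k → N k) : Z s :=
  if TwoValued x then pr k s (comp ω) (op ω x)
  else (comp ω, op ω (Prod.fst ∘ x), free E ω x)

/-- the representation -/
noncomputable def phi (E : Mm k × Mm k → Fin 3 → ZMod s) (x : N k → N k) : Om k s → Om k s
  | Sum.inl (j, b, _) => Sum.inl (pr k s j (x (A k b)))
  | Sum.inr ω => Sum.inl (theta E ω x)

theorem theta_fst (E : Mm k × Mm k → Fin 3 → ZMod s) (ω : Pr k) (x : N k → N k) :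
    (theta E ω x).1 = comp ω ∧ (theta E ω x).2.1 = op ω (Prod.fst ∘ x) := by
  unfold theta
  by_cases h : TwoValued x
  · rw [if_pos h, op_comm ω x h Prod.fst]
    exact ⟨rfl, rfl⟩
  · rw [if_neg h]
    exact ⟨rfl, rfl⟩

theorem phi_mul (E : Mm k × Mm k → Fin 3 → ZMod s) (x y : N k → N k) :
    phi E (y ∘ aa k ∘ x) = phi E y ∘ phi E x := by
  funext ω
  rcases ω with ⟨j, b, u⟩ | ω
  · rfl
  · show Sum.inl (theta E ω (y ∘ aa k ∘ x)) = phi E y (Sum.inl (theta E ω x))
    have h1 : y ∘ aa k ∘ x = (y ∘ A k) ∘ (Prod.fst ∘ x) := rfl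
    have h2 : TwoValued (Prod.fst ∘ x) := twoValued_bool _
    have h3 : theta E ω (y ∘ aa k ∘ x) =
        pr k s (comp ω) (y (A k (op ω (Prod.fst ∘ x)))) := by
      unfold theta
      rw [if_pos (by rw [h1]; exact twoValued_comp h2 _), h1, op_comm ω _ h2]
      rfl
    obtain ⟨h4, h5⟩ := theta_fst E ω x
    rw [h3, ← h5, ← h4]
    rfl

theorem core' {T T' : Type} (P0 P1 P2 : T → T') {p q x0 x1 y0 y1 c : T}
    (e01 : ¬ (P0 p = P0 q ∧ P1 p = P1 q)) (e02 : ¬ (P0 p = P0 q ∧ P2 p = P2 q))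
    (e12 : ¬ (P1 p = P1 q ∧ P2 p = P2 q)) (hpq : ¬ p = q)
    (hx0 : x0 = p ∨ x0 = q) (hx1 : x1 = p ∨ x1 = q) (hy0 : y0 = p ∨ y0 = q)
    (hy1 : y1 = p ∨ y1 = q) (hc : c = p ∨ c = q)
    (h0 : P0 x0 = P0 y0) (h1 : P1 x1 = P1 y1)
    (h2 : P2 (mal x0 x1 c) = P2 (mal y0 y1 c)) : x0 = y0 ∧ x1 = y1 := by
  have hqp : ¬ q = p := fun h => hpq h.symm
  rcases hx0 with rfl | rfl <;> rcases hy0 with rfl | rfl <;>
    rcases hx1 with rfl | rfl <;> rcases hy1 with rfl | rfl <;>
    rcases hc with rfl | rfl <;> simp_all [mal]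

/-- The combinatorial core of the injectivity for two-valued maps. -/
theorem core (hks : k < s) (p q x0 x1 y0 y1 c : N k)
    (hx0 : x0 = p ∨ x0 = q) (hx1 : x1 = p ∨ x1 = q) (hy0 : y0 = p ∨ y0 = q)
    (hy1 : y1 = p ∨ y1 = q) (hc : c = p ∨ c = q)
    (h0 : pr k s 0 x0 = pr k s 0 y0) (h1 : pr k s 1 x1 = pr k s 1 y1)
    (h2 : pr k s 2 (mal x0 x1 c) = pr k s 2 (mal y0 y1 c)) : x0 = y0 ∧ x1 = y1 := by
  by_cases hpq : p = q
  · subst hpq
    simp only [or_self] at hx0 hx1 hy0 hy1
    rw [hx0, hx1, hy0, hy1]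
    exact ⟨rfl, rfl⟩
  · have e01 : ¬ (pr k s 0 p = pr k s 0 q ∧ pr k s 1 p = pr k s 1 q) := fun h =>
      hpq (pr_code hks (by decide) h.1 h.2)
    have e02 : ¬ (pr k s 0 p = pr k s 0 q ∧ pr k s 2 p = pr k s 2 q) := fun h =>
      hpq (pr_code hks (by decide) h.1 h.2)
    have e12 : ¬ (pr k s 1 p = pr k s 1 q ∧ pr k s 2 p = pr k s 2 q) := fun h =>
      hpq (pr_code hks (by decide) h.1 h.2)
    generalize pr k s 0 = P0 at h0 e01 e02
    generalize pr k s 1 = P1 at h1 e01 e12
    generalize pr k s 2 = P2 at h2 e02 e12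
    exact core' P0 P1 P2 e01 e02 e12 hpq hx0 hx1 hy0 hy1 hc h0 h1 h2

theorem phi_injective (hks : k < s) (E : Mm k × Mm k → Fin 3 → ZMod s)
    (hE : Function.Injective E) : Function.Injective (phi E) := by
  intro x y h
  have hpr : ∀ j b, pr k s j (x (A k b)) = pr k s j (y (A k b)) := fun j b =>
    Sum.inl.inj (congrFun h (Sum.inl (j, b, 0)))
  have hA : ∀ b, x (A k b) = y (A k b) := fun b =>
    pr_code hks (j := 0) (j' := 1) (by decide) (hpr 0 b) (hpr 1 b)
  have hθ : ∀ ω, theta E ω x = theta E ω y := fun ω => Sum.inl.inj (congrFun h (Sum.inr ω))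
  -- it is enough to treat the points outside the image of `a`
  suffices hsuf : ∀ (m : Mm k) (_ : m ≠ (0, 0)),
      x (false, m) = y (false, m) ∧ x (true, m) = y (true, m) by
    funext ⟨b, m⟩
    by_cases hm : m = (0, 0)
    · rw [hm]; exact hA b
    · cases b
      · exact (hsuf m hm).1
      · exact (hsuf m hm).2
  have hcross : ∀ x y : N k → N k, (∀ ω, theta E ω x = theta E ω y) → TwoValued x →
      TwoValued y := by
    intro x y hθ hx
    by_contra hy
    have h1 := hθ (Sum.inr 0)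
    unfold theta at h1
    rw [if_pos hx, if_neg hy] at h1
    have h2 : code k s (comp (k := k) (Sum.inr 0)) (op (Sum.inr 0) x).2 = (k : ZMod s) :=
      congrArg (fun z : Z s => z.2.2) h1
    have h3 : code k s (comp (k := k) (Sum.inr 0)) (op (Sum.inr 0) x).2 =
        (((op (Sum.inr 0) x).2.1 : ℕ) : ZMod s) := rfl
    rw [h3] at h2
    exact cast_ne hks _ h2
  by_cases hx : TwoValued x
  · have hy := hcross x y hθ hx
    have hop : ∀ ω, pr k s (comp ω) (op ω x) = pr k s (comp ω) (op ω y) := by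
      intro ω
      have h1 := hθ ω
      unfold theta at h1
      rwa [if_pos hx, if_pos hy] at h1
    have hext : ext (A k false) (A k true) x = ext (A k false) (A k true) y :=
      pr_code hks (j := 0) (j' := 1) (by decide) (hop (Sum.inr 0)) (hop (Sum.inr 1))
    obtain ⟨p, q, hpq⟩ : ∃ p q, ∀ i, (x i = p ∨ x i = q) ∧ (y i = p ∨ y i = q) := by
      by_cases hne : x (A k false) = x (A k true)
      · refine ⟨x (A k false), ext (A k false) (A k true) x, fun i => ⟨?_, ?_⟩⟩
        · by_cases h1 : x i = x (A k false)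
          · exact Or.inl h1
          · exact Or.inr (ext_other _ _ x hx hne i h1).symm
        · by_cases h1 : y i = y (A k false)
          · rw [hA false]; exact Or.inl h1
          · right
            rw [hext]
            exact (ext_other _ _ y hy (by rw [← hA, ← hA, hne]) i h1).symm
      · refine ⟨x (A k false), x (A k true), fun i => ⟨hx.cases hne i, ?_⟩⟩
        rw [hA false, hA true] at hne ⊢
        exact hy.cases hne i
    intro m hm
    have h0 := hop (Sum.inl (⟨m, hm⟩, 0))
    have h1 := hop (Sum.inl (⟨m, hm⟩, 1))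
    have h2 := hop (Sum.inl (⟨m, hm⟩, 2))
    have h2' : pr k s 2 (mal (x (false, m)) (x (true, m)) (x (A k true))) =
        pr k s 2 (mal (y (false, m)) (y (true, m)) (x (A k true))) := by
      have h3 : pr k s 2 (mal (x (false, m)) (x (true, m)) (x (A k true))) =
        pr k s 2 (mal (y (false, m)) (y (true, m)) (y (A k true))) := h2
      rwa [← hA true] at h3
    exact core hks p q _ _ _ _ (x (A k true)) (hpq _).1 (hpq _).1 (hpq _).2 (hpq _).2
      (hpq _).1 h0 h1 h2'
  · have hy : ¬ TwoValued y := fun hy => hx (hcross y x (fun ω => (hθ ω).symm) hy)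
    intro m hm
    have h1 : ∀ j, op (Sum.inl (⟨m, hm⟩, j)) (Prod.fst ∘ x) =
        op (Sum.inl (⟨m, hm⟩, j)) (Prod.fst ∘ y) ∧
        E ((x (false, m)).2, (x (true, m)).2) j = E ((y (false, m)).2, (y (true, m)).2) j := by
      intro j
      have h1 := hθ (Sum.inl (⟨m, hm⟩, j))
      unfold theta at h1
      rw [if_neg hx, if_neg hy] at h1
      exact ⟨congrArg (fun z : Z s => z.2.1) h1, congrArg (fun z : Z s => z.2.2) h1⟩
    have h2 := hE (funext fun j => (h1 j).2)
    have h3 : (x (false, m)).1 = (y (false, m)).1 := (h1 0).1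
    have h4 : (x (true, m)).1 = (y (true, m)).1 := (h1 1).1
    rw [Prod.mk.injEq] at h2
    exact ⟨Prod.ext h3 h2.1, Prod.ext h4 h2.2⟩

end rep

/-- For `n = 2k²` some variant of `T_n` by a map of rank two embeds in `T_m`,
`m = 3k² + 6s - 1`, if `k < s` and `k⁴ ≤ s³`. -/
theorem embeds (k s : ℕ) (hk : 1 ≤ k) (hks : k < s) (h43 : k ^ 4 ≤ s ^ 3) :
    ∃ a : Fin (2 * k ^ 2) → Fin (2 * k ^ 2), rank a = 2 ∧
      EmbedsIn (Variant a) (3 * k ^ 2 + 6 * s - 1) := by
  have : NeZero k := ⟨by omega⟩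
  have : NeZero s := ⟨by omega⟩
  have hN : Fintype.card (N k) = 2 * k ^ 2 := by
    rw [Fintype.card_prod, Fintype.card_prod, Fintype.card_bool, Fintype.card_fin, sq]
  have hk2 : 1 ≤ k ^ 2 := Nat.one_le_pow _ _ hk
  have hOm : Fintype.card (Om k s) = 3 * k ^ 2 + 6 * s - 1 := by
    have h1 : Fintype.card {m : Mm k // m ≠ (0, 0)} = k ^ 2 - 1 := by
      rw [Fintype.card_subtype_compl, Fintype.card_subtype_eq, Fintype.card_prod,
        Fintype.card_fin, sq]
    rw [Fintype.card_sum, Fintype.card_sum, Fintype.card_prod, Fintype.card_prod,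
      Fintype.card_prod, h1, Fintype.card_bool, Fintype.card_fin, Fintype.card_fin, ZMod.card]
    omega
  let e : N k ≃ Fin (2 * k ^ 2) := Fintype.equivFinOfCardEq hN
  let f : Om k s ≃ Fin (3 * k ^ 2 + 6 * s - 1) := Fintype.equivFinOfCardEq hOm
  obtain ⟨E⟩ : Nonempty ((Mm k × Mm k) ↪ (Fin 3 → ZMod s)) := by
    refine Function.Embedding.nonempty_of_card_le ?_
    rw [Fintype.card_prod, Fintype.card_prod, Fintype.card_fin, Fintype.card_fun, ZMod.card,
      Fintype.card_fin]
    calc k * k * (k * k) = k ^ 4 := by ring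
      _ ≤ s ^ 3 := h43
  refine ⟨e ∘ aa k ∘ e.symm, ?_, ?_⟩
  · unfold rank
    have h1 : Set.range (e ∘ aa k ∘ e.symm) = {e (A k false), e (A k true)} := by
      ext i
      constructor
      · rintro ⟨j, rfl⟩
        show e (A k (e.symm j).1) = e (A k false) ∨ e (A k (e.symm j).1) = e (A k true)
        cases (e.symm j).1
        · exact Or.inl rfl
        · exact Or.inr rfl
      · rintro (rfl | rfl)
        · exact ⟨e (A k false), by simp [aa, A]⟩
        · exact ⟨e (A k true), by simp [aa, A]⟩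
    rw [h1, Set.ncard_pair]
    intro h
    have := e.injective h
    simp [A] at this
  · refine ⟨⟨fun x => f ∘ phi (s := s) E (e.symm ∘ x ∘ e) ∘ f.symm, ?_⟩, ?_⟩
    · intro x y
      have h1 : e.symm ∘ (x * y : Variant (e ∘ aa k ∘ e.symm)) ∘ e =
          (e.symm ∘ x ∘ e) ∘ aa k ∘ (e.symm ∘ y ∘ e) := by
        funext i
        rfl
      show f ∘ phi (s := s) E (e.symm ∘ (x * y : Variant (e ∘ aa k ∘ e.symm)) ∘ e) ∘ f.symm = _
      rw [h1, phi_mul]
      funext i
      show f (phi E (e.symm ∘ x ∘ e) (phi E (e.symm ∘ y ∘ e) (f.symm i))) =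
        f (phi E (e.symm ∘ x ∘ e) (f.symm (f (phi E (e.symm ∘ y ∘ e) (f.symm i)))))
      rw [f.symm_apply_apply]
    · intro x y hxy
      have h1 : phi (s := s) E (e.symm ∘ x ∘ e) = phi (s := s) E (e.symm ∘ y ∘ e) := by
        funext i
        have h2 : f (phi (s := s) E (e.symm ∘ x ∘ e) (f.symm (f i))) =
          f (phi (s := s) E (e.symm ∘ y ∘ e) (f.symm (f i))) := congrFun hxy (f i)
        rw [f.symm_apply_apply] at h2
        exact f.injective h2
      have h2 := phi_injective hks E E.injective h1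
      funext i
      have h3 := congrFun h2 (e.symm i)
      have h4 : e.symm (x (e (e.symm i))) = e.symm (y (e (e.symm i))) := h3
      rw [e.apply_symm_apply] at h4
      exact e.symm.injective h4

theorem minDegree_le (k s : ℕ) (hk : 1 ≤ k) (hks : k < s) (h43 : k ^ 4 ≤ s ^ 3) :
    ∃ a : Fin (2 * k ^ 2) → Fin (2 * k ^ 2), rank a = 2 ∧
      minDegree (Variant a) ≤ 3 * k ^ 2 + 6 * s - 1 := by
  obtain ⟨a, ha, hφ⟩ := embeds k s hk hks h43
  refine ⟨a, ha, Nat.sInf_le ⟨by omega, hφ⟩⟩

/-- A suitable `s` exists for all `k ≥ 15`. -/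
theorem exists_s (k : ℕ) (hk : 15 ≤ k) :
    ∃ s, k < s ∧ k ^ 4 ≤ s ^ 3 ∧ 3 * k ^ 2 + 6 * s - 1 < 2 * (2 * k ^ 2) - 2 := by
  rcases Nat.eq_or_lt_of_le hk with rfl | hk
  · exact ⟨37, by norm_num, by norm_num, by norm_num⟩
  · have hk16 : 16 ≤ k := hk
    obtain ⟨u, hu⟩ : ∃ u, u = k ^ 2 := ⟨_, rfl⟩
    have hu256 : 256 ≤ u := by rw [hu]; nlinarith
    refine ⟨(u - 2) / 6, ?_, ?_, ?_⟩
    · have h1 : 16 * k ≤ u := by rw [hu]; nlinarith
      omega
    · have h1 : u - 7 ≤ 6 * ((u - 2) / 6) := by omega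
      generalize (u - 2) / 6 = s at h1
      obtain ⟨w, hw⟩ : ∃ w, u = w + 7 := ⟨u - 7, by omega⟩
      have h2 : w ≤ 6 * s := by omega
      have h3 : w ^ 3 ≤ (6 * s) ^ 3 := Nat.pow_le_pow_left h2 3
      have h4 : k ^ 4 = (w + 7) ^ 2 := by rw [← hw, hu]; ring
      have h5 : 216 * (w + 7) ^ 2 ≤ w ^ 3 := by
        have hw249 : 249 ≤ w := by omega
        nlinarith [Nat.mul_le_mul hw249 (le_refl (w * w))]
      have h6 : (6 * s) ^ 3 = 216 * s ^ 3 := by ring
      rw [h4]
      omega
    · rw [← hu]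
      omega

/-- For every `k ≥ 15` and `n = 2k²` there is a map `a` of rank `r = 2` on `n` points such that
the minimum degree of the variant `T_n^a` is smaller than `2n - r`.  More precisely it is at most
`3k² + 6s - 1` whenever `k < s` and `k⁴ ≤ s³`.  In particular the conjectured formula
`μ(T_n^a) = 2n - r` for all `a` of rank `r ≥ 2` is false. -/
theorem result :
    (∃ (n : ℕ) (a : Fin n → Fin n), 2 ≤ rank a ∧ minDegree (Variant a) ≠ 2 * n - rank a) ∧
    (∀ k : ℕ, 15 ≤ k → ∃ a : Fin (2 * k ^ 2) → Fin (2 * k ^ 2),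
      rank a = 2 ∧ minDegree (Variant a) < 2 * (2 * k ^ 2) - rank a) ∧
    (∀ k s : ℕ, 1 ≤ k → k < s → k ^ 4 ≤ s ^ 3 →
      ∃ a : Fin (2 * k ^ 2) → Fin (2 * k ^ 2),
        rank a = 2 ∧ minDegree (Variant a) ≤ 3 * k ^ 2 + 6 * s - 1) := by
  have h2 : ∀ k : ℕ, 15 ≤ k → ∃ a : Fin (2 * k ^ 2) → Fin (2 * k ^ 2),
      rank a = 2 ∧ minDegree (Variant a) < 2 * (2 * k ^ 2) - rank a := by
    intro k hk
    obtain ⟨s, h1, h2, h3⟩ := exists_s k hk
    obtain ⟨a, ha, hle⟩ := minDegree_le k s (by omega) h1 h2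
    exact ⟨a, ha, by rw [ha]; omega⟩
  refine ⟨?_, h2, minDegree_le⟩
  obtain ⟨a, ha, hlt⟩ := h2 15 le_rfl
  exact ⟨_, a, ha.ge, hlt.ne⟩

end Pool.Agent.Results.MP_e4b752_al.SmallerDegree
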